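import Pool.Agent.Run7.h827.NE.Main

set_option autoImplicit false

/-! # The strong motivic monodromy conjecture for forms over products of northeast ideals of maximal
# minors

Let `x = (x_{i,j})`, `0 ≤ i < m`, `0 ≤ j < n`, be the generic `m × n` matrix. For `q = (i, j)` with
`i + j < n` (`Cell m n`) let `I_q` be the ideal of the maximal minors of the northeast matrix which
consists of the first `i + 1` rows and of the last `n - j` columns of `x`: the northeast ideals of
maximal minors of Bruns and Conca, which are the Borel fixed ideals of maximal minors (`neGen m n
q`). It vanishes where the rank of this matrix is at most `i`, a subset of codimension `n - i - j`.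

For `t ∈ T` let `e t q` be exponents, and let the `M_{t,J}` (`neProd m n (e t) J`) be the products
of such minors, `e t q` of them from the matrix of `q`, for each `q`. They generate the product `∏
q, I_q ^ e t q`. Let

  `F_t = ∑_J y_{t,J} M_{t,J}(x)`,

where the `y_{t,J}` are further variables, separate for each `t` (`blockForm`), so `F_t` is the
general form over this product. Let `f = ∏ t, F_t ^ a t` (`powProd`). We assume that the set of the
cells whose ideals occur in `f` is closed downwards (`Down`): if `I_q` occurs and `p ≤ q` in both
coordinates then `I_p` occurs. For instance, if `m ≤ n`, all the ideals `I_{(i, 0)}`, `i < r`, of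
the maximal minors of the first `i + 1` rows may occur, or all the `I_{(i, j)}` with `i < r`, `j <
c`; there is no other condition on the exponents.

The resolution. Let `D` be the set of the cells which occur, and let `E_p`, `p = (i, j) ∈ D`, be
obtained in the order of the rows `i`, and in each row in the order of the `j`, as follows. Suppose
that the `E_p` of the previous rows have been constructed, and that the `i`-vectors `x_0 ∧ … ∧ x_{i
- 1}`, restricted to the columns `≥ j`, are, up to a monomial in the equations of these divisors,
nowhere vanishing, and so define a subspace `Λ_j` of dimension `i` of `ℂ ^ (n - j)`. The condition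
that the row `x_i`, restricted to the columns `≥ j`, is in `Λ_j`, defines a smooth subvariety `Z_j`
of codimension `n - i - j`, which crosses the previous divisors transversely, since the entries of
the row `x_i` are free coordinates; and `Z_0 ⊆ Z_1 ⊆ …`, since the quotients of the `ℂ ^ (n - j)` by
the `Λ_j` are mapped onto each other. Blow up `Z_0` and the strict transforms of `Z_1, Z_2, …`, in
this order; they are again smooth and transverse. So one obtains a smooth variety `Y` on which the
`E_p`, `p ∈ D`, cross normally, the multiplicity of the Jacobian determinant along `E_p` is `ν_p -
1` with `ν_p = n - i - j`, and `I_q`, `q ∈ D`, becomes the ideal of the divisor `∑_{p ≤ q} E_p`. (If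
`ν_p = 1` then `E_p` is not exceptional but the strict transform of the zeros of a determinant.)
Locally `F_t` is one of the `M_{t,J}` times `y_{t,J} + ∑_{i ≠ J} g_i y_{t,i}`. Hence `Y` times the
space of the `y` is an embedded resolution of `f`, with the components `E_p`, of multiplicity `N_p =
∑ t, a t ∑_{q ≥ p} e t q`, and, for `a t > 0`, the strict transform of `F_t = 0`, with multiplicity
`a t` and `ν = 1` (`mulN`, `nuN`; in these definitions all the cells are listed, those not in `D`
have the multiplicity `0` and do not matter). So the motivic zeta functions `Z_f^mot` and
`Z_{f,0}^mot` of the problem, computed on this resolution, are of the form `dlZ = ∑_J c_J ∏_{i ∈ J}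
u ^ (-ν_i) T ^ (N_i) / (1 - u ^ (-ν_i) T ^ (N_i))`, with `u = 𝕃`, `R = 𝓜 = K₀(Var_ℂ)[𝕃⁻¹]` and `c_J
= 𝕃 ^ (-d) (𝕃 - 1) ^ |J| [E_J°]`, respectively with `[E_J° ∩ h⁻¹(0)]` in the place of `[E_J°]`, `d`
the number of the variables.

The proof. A functional equation of the product of powers of the `F_t` gives one of the product of
powers of the ideals `∏ q, I_q ^ e t q`, with the same `b` (`locEq_of_powProd`). A residue
computation at a general point of `E_p` gives the roots, since `E_p` is a Rees divisor of the
product of powers of the ideals of the `F_t` (`rees_prod`). The chart (`xi`), for `p = (i, j)`: the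
entries of the row `x_i` in the last `i` columns, in the columns `< j`, and the entries of all the
other rows are coordinates `X + c` with constants `c`, which are `λ` at the places of a partial
permutation matrix and `0` elsewhere; the other entries of the row `x_i` are `∑_k q_k x_k + z w`,
where the `q_k` are determined by the last `i` columns, and `w = 1` in one column and a coordinate
in the other ones (`wS`). The quotients of the minors of the matrix of `p` by one of them are these
coordinates (`NM_Jc`), so `E_p` is a Rees divisor as soon as `I_p` occurs. The roots `-(1 + l) / a
t` come from the strict transforms (`strict_root`). For the local functional equations the base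
point has to lie over a point of the affine space at which a given polynomial `H` with `H(0) ≠ 0`
does not vanish: `λ` is a general number (`exists_mul`). -/

namespace Pool.Agent.Results.MP_b07157_ag.NortheastMinors

open Pool.Agent.H628R4.TP Pool.Agent.TH192.DT Pool.Agent.R852.BM Pool.Agent.Run7.h827.NE

/-- **The strong monodromy conjecture for the motivic zeta functions of `f = ∏ t, F_t ^ a t`, global
(Q1) and local at the origin (Q2)**, `F_t` the general form over the product `∏ q, I_q ^ e t q` of
powers of northeast ideals of maximal minors of the generic `m × n` matrix, if the set of the cells
`q` whose ideals occur is closed downwards. Let `Z` be a series of the form of the formula of Denef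
and Loeser on the resolution described above, with arbitrary coefficients `χ J` in a commutative
ring `R` with a unit `u` (`R = 𝓜`, `u = 𝕃`; the `χ J` are the classes of the strata or of their
parts over the origin, times powers of `𝕃` and `𝕃 - 1`). Let `b` be a polynomial with `b(s) f ^ s =
P(s) f ^ (s + 1)`, `P(s)` in the Weyl algebra, for example the Bernstein-Sato polynomial `b_f`, or
more generally with `P(s)` a differential operator with (formal) power series at the origin as
coefficients, for example the local Bernstein-Sato polynomial `b_{f,0}`. Then `Z` lies in the ring
generated over `R` by `T` and the `1 / (1 - u ^ q₁ T ^ q₂)`, `q₁ < 0 < q₂`, with `b(q₁ / q₂) = 0`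
(`RootPairs b`); so every pole of `Z` is a root of `b`. -/
theorem result {T : Type} [Fintype T] [DecidableEq T] (m n : ℕ) (e : T → Cell m n → ℕ)
    (a : T → ℕ) (hd : Down e a) (R : Type) [CommRing R] (u : Rˣ)
    (χ : Finset {x // 0 < mulN m n e a x} → R) (b : Polynomial ℂ)
    (hb : IsBFunction (powProd a fun t => neProd m n (e t)) b ∨
      IsLocalBFunction (powProd a fun t => neProd m n (e t)) b) :
    dlZ u (nuN m n T) (mulN m n e a) χ ∈ ratU u (RootPairs b) ∧
      ∀ s₀ : ℚ, IsPoleU u (dlZ u (nuN m n T) (mulN m n e a) χ) s₀ → b.eval (s₀ : ℂ) = 0 :=
  ⟨ne_mot m n e a hd R u χ b hb, fun _ hs₀ =>
    root_of_poleU u (ne_mot m n e a hd R u χ b hb) hs₀⟩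

end Pool.Agent.Results.MP_b07157_ag.NortheastMinors
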