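import Pool.Agent.Run7.h768.CS.Mot

set_option autoImplicit false

/-! # The strong motivic monodromy conjecture: quadratic polynomials plus cubes of variables suffice

Every polynomial `f ∈ ℂ[x_1, ..., x_n]` with `f(0) = 0` is stably equivalent to a polynomial `F` of the form
`q + ∑_{i ∈ T} z_i ^ 3`, where `q` is a polynomial of degree at most two and `T` is a set of variables: for some
`κ` there is a polynomial automorphism in `n + 2 κ` variables which fixes the origin and maps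
`f(x) + t_1 w_1 + ... + t_κ w_κ` to `F` (`StabEq`, `QC`). The conjectures Q1, Q2 for `F` imply Q1, Q2 for
`f`. So Q1 and Q2 hold for all polynomials if they hold for the polynomials `q + ∑_{i ∈ T} z_i ^ 3`, `deg q ≤ 2`.
(The starting result `CubicPolynomials` has the reduction to cubic polynomials `q_0(x) + ∑_k t_k q_k(x)` with
arbitrary quadratic polynomials `q_k`. For the Jacobian conjecture the reductions to cubic and to cubic linear
maps are theorems of Bass, Connell and Wright and of Druzkowski.)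

Construction. The step is `f ↦ f + (t + v(x, w)) (w - u(x))`, `u(0) = v(0) = 0`, which is the image of
`f + t w` under `w ↦ w - u(x)`, `t ↦ t + v(x, w)`. With `v = c (w + u)` it replaces a term `c u ^ 2` of `f` by
`c w ^ 2 + t w - t u`, and with `v = w ^ 2 + w u + u ^ 2` a term `u ^ 3` by `w ^ 3 + t w - t u`. By
`6 t u ^ 2 = (t + u) ^ 3 + (t - u) ^ 3 - 2 t ^ 3` the products `t u`, `u = ∑ c_j u_j ^ 2`, are treated in the same way. -/

namespace Pool.Agent.Results.MP_b07157_ag.QuadraticPlusCubes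

open MvPolynomial Pool.Agent.W428.MOT Pool.Agent.N101.CB Pool.Agent.Run7.h768.CS
open Pool.Agent.H628R4.TP (IsBFunction IsLocalBFunction)

/-- **Quadratic polynomials plus cubes of variables suffice for the strong motivic monodromy conjecture.**

First part: for every non-constant `f` in `n` variables with `f(0) = 0` there are `κ` and a non-constant `F`
with `F(0) = 0` in `m = n + 2 κ` variables, `F = q + ∑_{i ∈ T} z_i ^ 3` with `deg q ≤ 2` (`QC F`), such that
(1) `F` is the image of `f(x) + t_1 w_1 + ... + t_κ w_κ` under an automorphism of the polynomial ring which fixes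
the origin (`StabEq f F κ`);
(2) `(1 - 𝕃 ^ (-κ) T) D_F(T) = 𝕃 ^ (-κ) (1 - T) D_f(𝕃 ^ (-κ) T)`, `D_f = Dg f =
(1 - 𝕃⁻¹ T) Z^mot_f - (1 - 𝕃⁻¹)`, and the same for `Dl f = (1 - 𝕃⁻¹ T) Z^mot_{f, 0} - 𝕃 ^ (-n) (1 - 𝕃⁻¹) T`;
(3) if `s₀ < 0`, `s₀ ≠ -1`, is a pole of `Z^mot_f` (or `Z^mot_{f, 0}`), then `s₀ - κ` is a pole of `Z^mot_F`
(or `Z^mot_{F, 0}`);
(4) a global or local functional equation of `f` with `(s + 1) c(s)` gives one of `F` with
`(s + 1) c(s + κ)`;
(5) the conjectures Q1, Q2 for `F` imply Q1, Q2 for `f`.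

Second and third part: Q1 (respectively Q2) holds for all non-constant polynomials with `f(0) = 0`, in any
number of variables, if and only if it holds for those of the form `q + ∑_{i ∈ T} z_i ^ 3`, `deg q ≤ 2`. -/
theorem result :
    (∀ {n : ℕ} (f : MvPolynomial (Fin n) ℂ), f.totalDegree ≠ 0 → constantCoeff f = 0 →
      ∃ (κ m : ℕ) (F : MvPolynomial (Fin m) ℂ), m = n + 2 * κ ∧ QC F ∧ F.totalDegree ≠ 0 ∧
        constantCoeff F = 0 ∧ StabEq f F κ ∧
        (1 - cYk κ * PowerSeries.X) * Dg F = cYk κ * (1 - PowerSeries.X) * rsk κ (Dg f) ∧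
        (1 - cYk κ * PowerSeries.X) * Dl F = cYk κ * (1 - PowerSeries.X) * rsk κ (Dl f) ∧
        (∀ s₀ : ℚ, s₀ < 0 → s₀ ≠ -1 →
          (IsPole (Zmot f Set.univ) s₀ → IsPole (Zmot F Set.univ) (s₀ - κ)) ∧
          (IsPole (Zmot f {0}) s₀ → IsPole (Zmot F {0}) (s₀ - κ))) ∧
        (∀ c : Polynomial ℂ, IsBFunction f ((Polynomial.X + 1) * c) →
          IsBFunction F ((Polynomial.X + 1) * c.comp (Polynomial.X + Polynomial.C (κ : ℂ)))) ∧
        (∀ c : Polynomial ℂ, IsLocalBFunction f ((Polynomial.X + 1) * c) →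
          IsLocalBFunction F ((Polynomial.X + 1) * c.comp (Polynomial.X + Polynomial.C (κ : ℂ)))) ∧
        (GlobalConj F → GlobalConj f) ∧ (LocalConj F → LocalConj f)) ∧
    ((∀ (n : ℕ) (f : MvPolynomial (Fin n) ℂ), f.totalDegree ≠ 0 → constantCoeff f = 0 →
        GlobalConj f) ↔
      ∀ (n : ℕ) (f : MvPolynomial (Fin n) ℂ), QC f → f.totalDegree ≠ 0 → constantCoeff f = 0 →
        GlobalConj f) ∧
    ((∀ (n : ℕ) (f : MvPolynomial (Fin n) ℂ), f.totalDegree ≠ 0 → constantCoeff f = 0 →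
        LocalConj f) ↔
      ∀ (n : ℕ) (f : MvPolynomial (Fin n) ℂ), QC f → f.totalDegree ≠ 0 → constantCoeff f = 0 →
        LocalConj f) := by
  refine ⟨fun f hf hf0 => ?_, ⟨fun h n f _ => h n f, fun h n f hf hf0 => ?_⟩,
    ⟨fun h n f _ => h n f, fun h n f hf hf0 => ?_⟩⟩
  · obtain ⟨κ, m, F, hm, hF, hs, hl, hr⟩ := exists_qc f
    refine ⟨κ, m, F, hm, hF, hl.deg hf, hl.const hf0, hs, hr.glob, hr.loc hf0,
      fun s₀ h0 h1 => ⟨?_, ?_⟩, fun c hc => (hl.b hf _ hc).2 c rfl,
      fun c hc => (hl.lb hf hf0 _ hc).2 c rfl, glob_of hf hl, loc_of hf hf0 hl⟩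
    · rw [isPole_Zmot, isPole_Zmot]
      exact hl.pole s₀ h0 h1
    · rw [isPole_Zmot, isPole_Zmot]
      exact hl.lpole hf0 s₀ h0 h1
  · obtain ⟨κ, m, F, -, hF, -, hl, -⟩ := exists_qc f
    exact glob_of hf hl (h m F hF (hl.deg hf) (hl.const hf0))
  · obtain ⟨κ, m, F, -, hF, -, hl, -⟩ := exists_qc f
    exact loc_of hf hf0 hl (h m F hF (hl.deg hf) (hl.const hf0))

end Pool.Agent.Results.MP_b07157_ag.QuadraticPlusCubes
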